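import Pool.Agent.U79.GX.LA3
import Pool.Agent.U79.GY.Stm

/-!
# Project GY (helper79), package LA: moments with a correction
-/

set_option autoImplicit false
set_option linter.unusedVariables false

open scoped Classical

namespace Pool.Agent.U951.GY

open Finset hiding ext
open Pool.Agent.Y703.CQ (prs ext)
open Pool.Agent.U79.MO (SolA card_rows)
open Pool.Agent.U79.GX (Cr VS V1 la2 card_VS card_supp lossy Cr_one)

/-- the rows with a correction -/
theorem corr {J : Type} [Fintype J] (a e : J → ZMod 2) (y : J → ZMod 2) (c h : ZMod 2)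
    (H : ∑ l, (a l + e l) * (y l + c) = h) :
    ∑ l, a l * (y l + c) = h + ∑ l, e l * (y l + c) := by
  have h1 : ∑ l, (a l + e l) * (y l + c) = ∑ l, a l * (y l + c) + ∑ l, e l * (y l + c) := by
    rw [← Finset.sum_add_distrib]
    exact Finset.sum_congr rfl fun l _ => add_mul _ _ _
  rw [h1] at H
  have h2 : ∀ p q r : ZMod 2, p + q = r → p = r + q := by decide
  exact h2 _ _ _ H

theorem t_LA : Pool.Agent.U79.GY.S_LA := by
  intro r U J _ _ _ U1 J1 A B C e f g
  constructor
  · rintro ⟨l₀, hl₀⟩ hndB hnd
    have hW0 := card_rows (U1 := U1) (J1 := J1) (B := B) (C := fun k u => B u k) A f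
      (fun _ _ _ _ => rfl) hndB
    set W := univ.filter fun z : (U → ZMod 2) × (J → ZMod 2) => (∀ u, u ∉ U1 → z.1 u = 0) ∧
      (∀ l, l ∉ J1 → z.2 l = 0) ∧
      (∀ u ∈ U1, ∑ v, A u v * (z.1 v + z.1 u) + ∑ l, B u l * (z.2 l + z.1 u) + f u * z.1 u = 0)
      with hWd
    have hW : W.card ≤ 2 ^ J1.card := by
      refine le_trans ?_ hW0
      refine Finset.card_le_card fun z hz => ?_
      have hz := (Finset.mem_filter.1 hz).2
      simp only [Finset.mem_filter, Finset.mem_univ, true_and]
      exact hz
    have h := la2 (J1 := J1) (K := J1) Finset.Subset.rfl hl₀ r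
      (fun α => VS U1 J1 A B C (fun j l => ext α j l + e j l) f g) W hW
      (LinearMap.snd (ZMod 2) (U → ZMod 2) (J → ZMod 2))
      (fun z k => ∑ u, C k u * (z.1 u + z.2 k) + g k * z.2 k + ∑ l, e k l * (z.2 l + z.2 k))
      (by
        intro α z hz hz0
        have hy : z.2 = 0 := hz0
        have hx : z.1 = 0 := by
          by_contra hx
          have hx2 : ∃ u, z.1 u ≠ 0 := by
            by_contra h
            push Not at h
            exact hx (funext h)
          obtain ⟨k, hk, hk2⟩ := hnd z.1 hz.1 hx2
          apply hk2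
          have h2 := hz.2.2.2 k hk
          rw [hy] at h2
          simp only [Pi.zero_apply, add_zero, mul_zero, Finset.sum_const_zero] at h2
          rw [← h2]
          exact Finset.sum_congr rfl fun u _ => mul_comm _ _
        exact Prod.ext hx hy)
      (by
        intro α z hz
        exact Finset.mem_filter.2 ⟨Finset.mem_univ _, hz.1, hz.2.1, hz.2.2.1⟩)
      (by
        intro α z hz
        refine ⟨hz.2.1, fun k hk => ?_⟩
        refine corr (fun l => ext α k l) (fun l => e k l) z.2 (z.2 k) _ ?_
        have h5 : ∀ p q r : ZMod 2, p + q + r = 0 → q = p + r := by decide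
        exact h5 _ _ _ (hz.2.2.2 k hk))
    have h' : ((∑ α : prs J1 → ZMod 2,
        Nat.card (VS U1 J1 A B C (fun j l => ext α j l + e j l) f g) ^ r : ℕ) : ℝ) ≤
        (((2 ^ r + 1) * 2 ^ (r ^ 2) * 2 ^ (prs J1).card : ℕ) : ℝ) := by exact_mod_cast h
    push_cast at h'
    refine le_trans (le_of_eq ?_) h'
    exact Finset.sum_congr rfl fun α _ => by rw [card_VS]
  · have hC := Cr_one r
    have hN : Fintype.card (prs J1 → ZMod 2) = 2 ^ (prs J1).card := by
      rw [Fintype.card_fun, ZMod.card, Fintype.card_coe]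
    rcases isEmpty_or_nonempty J with hJ | ⟨⟨l₀⟩⟩
    · have h1 : ∀ α : prs J1 → ZMod 2, ((univ.filter fun z : (U → ZMod 2) × (J → ZMod 2) =>
          SolA U1 J1 A B C (fun j l => ext α j l + e j l) f g z).card : ℝ) ^ r ≤
          (2 ^ (Fintype.card U + 1)) ^ r := by
        intro α
        refine pow_le_pow_left₀ (Nat.cast_nonneg _) ?_ r
        have h2 : (univ.filter fun z : (U → ZMod 2) × (J → ZMod 2) =>
            SolA U1 J1 A B C (fun j l => ext α j l + e j l) f g z).card ≤
            2 ^ (Fintype.card U + 1) := by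
          refine (Finset.card_le_univ _).trans ?_
          rw [Fintype.card_prod, Fintype.card_fun, Fintype.card_fun, ZMod.card,
            Fintype.card_eq_zero (α := J), pow_zero, mul_one]
          exact Nat.pow_le_pow_right (by norm_num) (by omega)
        exact_mod_cast h2
      refine (Finset.sum_le_sum fun α _ => h1 α).trans ?_
      rw [Finset.sum_const, Finset.card_univ, hN, nsmul_eq_mul]
      push_cast
      rw [mul_comm]
      refine mul_le_mul_of_nonneg_left ?_ (by positivity)
      have h3 : (0 : ℝ) ≤ 2 ^ (prs J1).card := by positivity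
      nlinarith
    · have hl₀ : l₀ ∉ J1.erase l₀ := Finset.notMem_erase _ _
      have h := la2 (J1 := J1) (K := J1.erase l₀) (Finset.erase_subset _ _) hl₀ r
        (fun α => V1 (J1.erase l₀) (fun j l => ext α j l + e j l) fun k => g k + ∑ u, C k u)
        (univ.filter fun y : J → ZMod 2 => ∀ l, l ∉ J1.erase l₀ → y l = 0) (card_supp _)
        LinearMap.id (fun y k => (g k + ∑ u, C k u) * y k + ∑ l, e k l * (y l + y k))
        (fun α z _ h => h)
        (fun α z hz => Finset.mem_filter.2 ⟨Finset.mem_univ _, hz.1⟩)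
        (fun α z hz => ⟨hz.1, fun k hk =>
          corr (fun l => ext α k l) (fun l => e k l) z (z k) _ (hz.2 k hk)⟩)
      have h' : ((∑ α : prs J1 → ZMod 2, Nat.card (V1 (J1.erase l₀)
          (fun j l => ext α j l + e j l) fun k => g k + ∑ u, C k u) ^ r : ℕ) : ℝ) ≤
          (((2 ^ r + 1) * 2 ^ (r ^ 2) * 2 ^ (prs J1).card : ℕ) : ℝ) := by exact_mod_cast h
      push_cast at h'
      have h1 : ∀ α : prs J1 → ZMod 2, ((univ.filter fun z : (U → ZMod 2) × (J → ZMod 2) =>
          SolA U1 J1 A B C (fun j l => ext α j l + e j l) f g z).card : ℝ) ^ r ≤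
          (2 ^ (Fintype.card U + 1)) ^ r *
          (Nat.card (V1 (J1.erase l₀) (fun j l => ext α j l + e j l)
            fun k => g k + ∑ u, C k u) : ℝ) ^ r := by
        intro α
        rw [← mul_pow]
        refine pow_le_pow_left₀ (Nat.cast_nonneg _) ?_ r
        have h3 := lossy U1 J1 l₀ A B C (fun j l => ext α j l + e j l) f g
        have h4 : ((univ.filter fun z : (U → ZMod 2) × (J → ZMod 2) =>
            SolA U1 J1 A B C (fun j l => ext α j l + e j l) f g z).card : ℝ) ≤
            ((2 ^ (Fintype.card U + 1) *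
            Nat.card (V1 (J1.erase l₀) (fun j l => ext α j l + e j l)
              fun k => g k + ∑ u, C k u) : ℕ) : ℝ) :=
          Nat.cast_le.2 h3
        refine h4.trans (le_of_eq ?_)
        push_cast
        rfl
      refine (Finset.sum_le_sum fun α _ => h1 α).trans ?_
      rw [← Finset.mul_sum]
      exact mul_le_mul_of_nonneg_left h' (by positivity)

end Pool.Agent.U951.GY
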